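import Pool.Agent.H97.PRK.Targets

/-!
Row AL of the board prk: an ordinal of small cofinality which is regular in HOD.
-/

open Ordinal Cardinal Order Set
open scoped ZFSet
open _root_.HD _root_.HD.PRK

universe u

namespace Pool.Agent.H67.PRK

theorem al_hreg {α : Ordinal.{u}} (h : RegHOD α) : HReg α := by
  intro X hX hunb hfew
  obtain ⟨τ, hτ, hi1, hi2⟩ := Pool.Agent.H17.HD.XK.idx _root_.HD.All.vh hfew
  refine h.2 ⟨τ, hτ.trans_le (Cardinal.ord_card_le α), rs τ α (nth (X ∩ Iio α)),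
    hod_rs (Pool.Agent.H17.HD.XK.dr_nth _root_.HD.All.db
      (Pool.Agent.H17.HD.XK.ds_inter hX _)) _ _,
    Pool.Agent.H17.HD.XK.isFunc_rs (fun a ha => ?_)
      (fun a b b' h h' => Pool.Agent.H17.HD.XK.nth_uniq _root_.HD.All.vh h h'),
    fun b hb => ?_⟩
  · obtain ⟨z, hz⟩ := hi1 a ha
    exact ⟨z, hz.1.2, hz⟩
  · obtain ⟨c, hc, hbc, hcX⟩ := hunb b hb
    obtain ⟨i, -, hi⟩ := (_root_.HD.All.vh (X ∩ Iio α)).1 c ⟨hcX, hc⟩
    exact ⟨i, hi2 _ _ hi, c, hbc, pair_mem_rs.2 ⟨hi2 _ _ hi, hc, hi⟩⟩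

theorem pf_AL : T_AL.{u} := by
  intro δ hext hnA
  obtain ⟨η, -, θ, j, hE⟩ := _root_.HD.All.xa δ hext 0
  obtain ⟨D, hD, hDr, hDs, hD0⟩ := _root_.HD.All.xb δ η θ j hE
  have hKr : (succ D).IsRegular := Cardinal.isRegular_succ hDr.aleph0_le
  have hδK : δ < (succ D).ord := by
    rw [hD]
    exact Cardinal.ord_lt_ord.2 (Order.lt_succ D)
  have hωδ : (ℵ₀ : Cardinal.{u}).ord < δ := by
    rw [hD]
    exact Cardinal.ord_lt_ord.2 hD0
  have h0δ : (0 : Ordinal.{u}) < δ := zero_le.trans_lt hωδ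
  have hM := (_root_.HD.All.m2 δ hext).resolve_left hnA
  obtain ⟨δ0, h1, -, h3⟩ := hM 0 h0δ
  obtain ⟨C, hC, hI⟩ := h3 (succ D) hKr (h1.trans hδK)
  have hC' : Clb (succ D).ord {a | a ∈ C ∧ δ < a} := by
    refine ⟨fun a ha => ?_, fun x hx h0 hy => ?_⟩
    · obtain ⟨b, hb, hab, hbC⟩ := hC.unb (max a δ) (max_lt ha hδK)
      exact ⟨b, hb, (le_max_left _ _).trans_lt hab, hbC, (le_max_right _ _).trans_lt hab⟩
    · refine ⟨hC.cls x hx h0 fun y hyx => ?_, ?_⟩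
      · obtain ⟨z, hz, hyz, hzC⟩ := hy y hyx
        exact ⟨z, hz, hyz, hzC.1⟩
      · obtain ⟨z, hz, -, hzC⟩ := hy 0 h0
        exact hzC.2.trans hz
  have hpos : Pos (ℵ₀ : Cardinal.{u}).ord (succ D).ord univ := by
    refine _root_.HD.All.vc ℵ₀ (succ D).ord Cardinal.isRegular_aleph0 ?_
    rw [hKr.cof_ord]
    exact hD0.trans (Order.lt_succ D)
  obtain ⟨b, hb, hbC, -, hcf⟩ := hpos _ hC'
  have hin := hI b hbC.1 hb
  refine ⟨b, hbC.2, al_hreg hin.2.1, hin.2.1.1, ?_⟩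
  have : b.cof.ord = (ℵ₀ : Cardinal.{u}).ord := hcf
  rw [this]
  exact hωδ

end Pool.Agent.H67.PRK
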