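import Pool.Agent.H97.PRK.Targets

/-!
Row LOC of the board prk: splitting is locally definable.
-/

open Ordinal Cardinal Order Set
open scoped ZFSet
open _root_.HD _root_.HD.PRK

universe u

namespace Pool.Agent.H67.PRK

theorem posX_congr {μ ρ : Ordinal.{u}} {P Q : ZFSet.{u} → Prop} (h : ∀ x, P x ↔ Q x) :
    PosX μ ρ P ↔ PosX μ ρ Q := by
  have : P = Q := funext fun x => propext (h x)
  rw [this]

/-- quantification over the elements of an ordinal -/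
theorem agr_iff {F x : ZFSet.{u}} {i : Ordinal.{u}} {Y : Set Ordinal.{u}} {y : ZFSet.{u}}
    (hy : ∀ a < i, a.toZFSet ∈ y ↔ a ∈ Y) :
    Agr F x i Y ↔ ∀ a ∈ i.toZFSet, (ZFSet.pair x a ∈ F ↔ a ∈ y) := by
  constructor
  · intro h a ha
    obtain ⟨b, hb, rfl⟩ := mem_toZFSet_iff.1 ha
    rw [hy b hb]
    exact h b hb
  · intro h a ha
    rw [← hy a ha]
    exact h _ (toZFSet_mem_toZFSet_iff.2 ha)

theorem loc_LOP (h : T_LPX.{u}) : T_LOP.{u} := by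
  have h1 : Loc.{u} fun v => (v 0).IsOrdinal ∧ (v 1).IsOrdinal ∧
      PosX (v 0).rank (v 1).rank
        (fun x => ∀ a ∈ v 3, (ZFSet.pair x a ∈ v 2 ↔ a ∈ v 4)) := by
    refine h (fun x v => ∀ a ∈ v 3, (ZFSet.pair x a ∈ v 2 ↔ a ∈ v 4)) ?_ 0 1
    refine Loc.allMem (R := fun a v => ZFSet.pair (v 0) a ∈ v 3 ↔ a ∈ v 5) 4 ?_
    exact (loc_pmem 1 0 4).iff (Loc.mem 0 6)
  refine Loc.congr (h1.and (loc_ord 3)) fun v => ?_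
  constructor
  · rintro ⟨a0, a1, a3, hp⟩
    refine ⟨⟨a0, a1, (posX_congr fun x => ?_).1 hp⟩, a3⟩
    obtain ⟨i, hi⟩ := ord_of a3
    rw [hi, rank_toZFSet]
    exact agr_iff fun a _ => Iff.rfl
  · rintro ⟨⟨a0, a1, hp⟩, a3⟩
    refine ⟨a0, a1, a3, (posX_congr fun x => ?_).2 hp⟩
    obtain ⟨i, hi⟩ := ord_of a3
    rw [hi, rank_toZFSet]
    exact agr_iff fun a _ => Iff.rfl

theorem loc_LOC (h : T_LPX.{u}) : T_LOC.{u} := by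
  have h1 : Loc.{u} fun v => (v 1).IsOrdinal ∧ (v 2).IsOrdinal ∧
      PosX (v 1).rank (v 2).rank
        (fun x => (∀ a ∈ v 4, (ZFSet.pair x a ∈ v 3 ↔ a ∈ v 0)) ∧ ZFSet.pair x (v 4) ∈ v 3) := by
    refine h (fun x v => (∀ a ∈ v 4, (ZFSet.pair x a ∈ v 3 ↔ a ∈ v 0)) ∧
      ZFSet.pair x (v 4) ∈ v 3) ?_ 1 2
    refine Loc.and ?_ (loc_pmem 0 5 4)
    refine Loc.allMem (R := fun a v => ZFSet.pair (v 0) a ∈ v 4 ↔ a ∈ v 1) 5 ?_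
    exact (loc_pmem 1 0 5).iff (Loc.mem 0 2)
  have h2 : Loc.{u} fun v => (v 1).IsOrdinal ∧ (v 2).IsOrdinal ∧
      PosX (v 1).rank (v 2).rank
        (fun x => (∀ a ∈ v 4, (ZFSet.pair x a ∈ v 3 ↔ a ∈ v 0)) ∧ ¬ ZFSet.pair x (v 4) ∈ v 3) := by
    refine h (fun x v => (∀ a ∈ v 4, (ZFSet.pair x a ∈ v 3 ↔ a ∈ v 0)) ∧
      ¬ ZFSet.pair x (v 4) ∈ v 3) ?_ 1 2
    refine Loc.and ?_ (loc_pmem 0 5 4).not
    refine Loc.allMem (R := fun a v => ZFSet.pair (v 0) a ∈ v 4 ↔ a ∈ v 1) 5 ?_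
    exact (loc_pmem 1 0 5).iff (Loc.mem 0 2)
  have h3 : Loc.{u} fun v => ∃ y ⊆ v 3,
      ((v 0).IsOrdinal ∧ (v 1).IsOrdinal ∧ PosX (v 0).rank (v 1).rank
        (fun x => (∀ a ∈ v 3, (ZFSet.pair x a ∈ v 2 ↔ a ∈ y)) ∧ ZFSet.pair x (v 3) ∈ v 2)) ∧
      ((v 0).IsOrdinal ∧ (v 1).IsOrdinal ∧ PosX (v 0).rank (v 1).rank
        (fun x => (∀ a ∈ v 3, (ZFSet.pair x a ∈ v 2 ↔ a ∈ y)) ∧ ¬ ZFSet.pair x (v 3) ∈ v 2)) :=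
    Loc.exSub (R := fun y v => ((v 0).IsOrdinal ∧ (v 1).IsOrdinal ∧ PosX (v 0).rank (v 1).rank
        (fun x => (∀ a ∈ v 3, (ZFSet.pair x a ∈ v 2 ↔ a ∈ y)) ∧ ZFSet.pair x (v 3) ∈ v 2)) ∧
      ((v 0).IsOrdinal ∧ (v 1).IsOrdinal ∧ PosX (v 0).rank (v 1).rank
        (fun x => (∀ a ∈ v 3, (ZFSet.pair x a ∈ v 2 ↔ a ∈ y)) ∧ ¬ ZFSet.pair x (v 3) ∈ v 2)))
      3 (h1.and h2)
  refine Loc.congr (h3.and (loc_ord 3)) fun v => ?_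
  have key : ∀ (i : Ordinal.{u}) (Y : Set Ordinal.{u}) (y : ZFSet.{u}), v 3 = i.toZFSet →
      (∀ a < i, a.toZFSet ∈ y ↔ a ∈ Y) →
      (PosX (v 0).rank (v 1).rank (fun x => Agr (v 2) x i Y ∧ i ∈ sec (v 2) x) ↔
        PosX (v 0).rank (v 1).rank
        (fun x => (∀ a ∈ v 3, (ZFSet.pair x a ∈ v 2 ↔ a ∈ y)) ∧ ZFSet.pair x (v 3) ∈ v 2)) ∧
      (PosX (v 0).rank (v 1).rank (fun x => Agr (v 2) x i Y ∧ i ∉ sec (v 2) x) ↔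
        PosX (v 0).rank (v 1).rank
        (fun x => (∀ a ∈ v 3, (ZFSet.pair x a ∈ v 2 ↔ a ∈ y)) ∧
          ¬ ZFSet.pair x (v 3) ∈ v 2)) := by
    intro i Y y hi hy
    rw [hi]
    exact ⟨posX_congr fun x => and_congr (agr_iff hy) Iff.rfl,
      posX_congr fun x => and_congr (agr_iff hy) Iff.rfl⟩
  constructor
  · rintro ⟨a0, a1, a3, Y, hY1, hY2⟩
    obtain ⟨i, hi⟩ := ord_of a3
    rw [hi, rank_toZFSet] at hY1 hY2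
    have hy : ∀ a < i, a.toZFSet ∈ os i Y ↔ a ∈ Y := fun a ha => by
      rw [ord_mem_os]
      exact ⟨fun h => h.2, fun h => ⟨ha, h⟩⟩
    obtain ⟨k1, k2⟩ := key i Y (os i Y) hi hy
    refine ⟨⟨os i Y, ?_, ⟨a0, a1, k1.1 hY1⟩, a0, a1, k2.1 hY2⟩, a3⟩
    rw [hi]
    intro z hz
    obtain ⟨a, ha, -, rfl⟩ := mem_os.1 hz
    exact toZFSet_mem_toZFSet_iff.2 ha
  · rintro ⟨⟨y, -, ⟨a0, a1, b1⟩, -, -, b2⟩, a3⟩
    obtain ⟨i, hi⟩ := ord_of a3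
    have hy : ∀ a < i, a.toZFSet ∈ y ↔ a ∈ {a : Ordinal.{u} | a.toZFSet ∈ y} := fun a _ => Iff.rfl
    obtain ⟨k1, k2⟩ := key i _ y hi hy
    refine ⟨a0, a1, a3, {a : Ordinal.{u} | a.toZFSet ∈ y}, ?_, ?_⟩
    · rw [hi, rank_toZFSet]
      exact k1.2 b1
    · rw [hi, rank_toZFSet]
      exact k2.2 b2

theorem pf_LOC (h : T_LPX.{u}) : T_LOC.{u} ∧ T_LOP.{u} := ⟨loc_LOC h, loc_LOP h⟩

end Pool.Agent.H67.PRK
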